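import Pool.Agent.W488.IX.Stm

/-! Project IX, part IW2: the sharp inequality for all p at least 2. -/

set_option autoImplicit false

namespace Pool.Agent.W249.IX.Iw2

open Pool.Agent.W488.IW Pool.Agent.W488.IX
open MeasureTheory Set Filter Topology

lemma continuous_dz {f : ℂ → ℂ} (hf : ContDiff ℝ 1 f) : Continuous (dz f) := by
  have h : Continuous (fderiv ℝ f) := hf.continuous_fderiv (by simp)
  unfold dz
  exact continuous_const.mul ((h.clm_apply continuous_const).sub
    (continuous_const.mul (h.clm_apply continuous_const)))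

lemma continuous_dzb {f : ℂ → ℂ} (hf : ContDiff ℝ 1 f) : Continuous (dzb f) := by
  have h : Continuous (fderiv ℝ f) := hf.continuous_fderiv (by simp)
  unfold dzb
  exact continuous_const.mul ((h.clm_apply continuous_const).add
    (continuous_const.mul (h.clm_apply continuous_const)))

lemma supp_dz {f : ℂ → ℂ} (hs : HasCompactSupport f) : HasCompactSupport (dz f) := by
  have h := hs.fderiv (𝕜 := ℝ)
  refine h.mono ?_
  intro x hx
  simp only [Function.mem_support] at hx ⊢
  intro h0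
  exact hx (by simp [dz, h0])

lemma supp_dzb {f : ℂ → ℂ} (hs : HasCompactSupport f) : HasCompactSupport (dzb f) := by
  have h := hs.fderiv (𝕜 := ℝ)
  refine h.mono ?_
  intro x hx
  simp only [Function.mem_support] at hx ⊢
  intro h0
  exact hx (by simp [dzb, h0])

lemma integrable_norm_rpow {g : ℂ → ℂ} (hg : Continuous g) (hs : HasCompactSupport g) {p : ℝ}
    (hp : 0 < p) : Integrable (fun z => ‖g z‖ ^ p) := by
  refine Continuous.integrable_of_hasCompactSupport ?_ ?_
  · exact hg.norm.rpow_const (fun _ => Or.inr hp.le)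
  · refine hs.mono ?_
    intro x hx
    simp only [Function.mem_support] at hx ⊢
    intro h0
    exact hx (by simp [h0, Real.zero_rpow hp.ne'])

/-- both branches agree on the diagonal -/
lemma diag {p x : ℝ} (hp : 2 < p) (hx : 0 ≤ x) :
    ((p - 1) * x - x) * (x + x) ^ (p - 1)
      = 2 ^ (p - 2) * ((p - 1) * x ^ p - (3 - p) * x ^ p) := by
  rcases eq_or_lt_of_le hx with rfl | hx0
  · rw [Real.zero_rpow (by linarith)]
    ring
  · have e1 : (x + x) ^ (p - 1) = 2 ^ (p - 1) * x ^ (p - 1) := by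
      rw [← Real.mul_rpow (by norm_num) hx]
      congr 1; ring
    have e2 : x ^ p = x ^ (p - 1) * x := by
      conv_rhs => rw [← Real.rpow_one x]
      rw [← Real.rpow_mul hx, ← Real.rpow_add hx0]
      congr 1; ring
    have e3 : (2 : ℝ) ^ (p - 1) = 2 ^ (p - 2) * 2 := by
      conv_rhs => rw [← Real.rpow_one 2]
      rw [← Real.rpow_mul (by norm_num), ← Real.rpow_add (by norm_num)]
      congr 1; ring
    rw [e1, e2, e3]
    ring

lemma continuous_Wq {p : ℝ} (hp : 2 < p) :
    Continuous (fun F : ℂ × ℂ => Wq p ‖F.1‖ ‖F.2‖) := by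
  have h1 : Continuous (fun F : ℂ × ℂ => ‖F.1‖) := continuous_fst.norm
  have h2 : Continuous (fun F : ℂ × ℂ => ‖F.2‖) := continuous_snd.norm
  have e : (fun F : ℂ × ℂ => Wq p ‖F.1‖ ‖F.2‖) = fun F : ℂ × ℂ =>
      if ‖F.1‖ ≤ ‖F.2‖ then ((p - 1) * ‖F.1‖ - ‖F.2‖) * (‖F.1‖ + ‖F.2‖) ^ (p - 1)
      else 2 ^ (p - 2) * ((p - 1) * ‖F.1‖ ^ p - (3 - p) * ‖F.2‖ ^ p) := by
    funext F
    unfold Wq
    by_cases h : ‖F.1‖ ≤ ‖F.2‖
    · rw [if_neg (not_lt.mpr h), if_pos h]
    · rw [if_pos (not_le.mp h), if_neg h]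
  rw [e]
  refine Continuous.if_le ?_ ?_ h1 h2 ?_
  · exact ((continuous_const.mul h1).sub h2).mul
      ((h1.add h2).rpow_const (fun _ => Or.inr (by linarith)))
  · exact continuous_const.mul ((continuous_const.mul
      (h1.rpow_const (fun _ => Or.inr (by linarith)))).sub
      (continuous_const.mul (h2.rpow_const (fun _ => Or.inr (by linarith)))))
  · intro F hF
    rw [← hF]
    exact diag hp (norm_nonneg _)

/-- the range near 2 -/
lemma near (hQ : S_QPX) (hPL : S_PLANE) (hPT : S_PTX) (p : ℝ) (hp2 : 2 < p) (hp3 : p ≤ 11 / 5)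
    (f : ℂ → ℂ) (hf : ContDiff ℝ 1 f) (hs : HasCompactSupport f) :
    ∫ z, ‖dzb f z‖ ^ p ≤ (p - 1) ^ p * ∫ z, ‖dz f z‖ ^ p := by
  have hp0 : 0 < p := by linarith
  have hw0 : (fun F : ℂ × ℂ => Wq p ‖F.1‖ ‖F.2‖) 0 = 0 := by
    simp [Wq]
  have hpos : 0 ≤ ∫ z : ℂ, Wq p ‖dz f z‖ ‖dzb f z‖ :=
    hPL (fun F : ℂ × ℂ => Wq p ‖F.1‖ ‖F.2‖) (continuous_Wq hp2) hw0 (hQ p hp2 hp3) f hf hs
  set c : ℝ := p * (1 - 1 / p) ^ (p - 1) with hc
  have hc0 : 0 ≤ c := by
    apply mul_nonneg hp0.le
    apply Real.rpow_nonneg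
    have : 1 / p ≤ 1 := by
      rw [div_le_one hp0]; linarith
    linarith
  have hi1 : Integrable (fun z => ‖dz f z‖ ^ p) :=
    integrable_norm_rpow (continuous_dz hf) (supp_dz hs) hp0
  have hi2 : Integrable (fun z => ‖dzb f z‖ ^ p) :=
    integrable_norm_rpow (continuous_dzb hf) (supp_dzb hs) hp0
  have hiW : Integrable (fun z => Wq p ‖dz f z‖ ‖dzb f z‖) := by
    refine Continuous.integrable_of_hasCompactSupport ?_ ?_
    · exact (continuous_Wq hp2).comp ((continuous_dz hf).prodMk (continuous_dzb hf))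
    · have h := hs.fderiv (𝕜 := ℝ)
      refine h.mono ?_
      intro x hx
      simp only [Function.mem_support] at hx ⊢
      intro h0
      apply hx
      have e1 : dz f x = 0 := by simp [dz, h0]
      have e2 : dzb f x = 0 := by simp [dzb, h0]
      rw [e1, e2]
      simpa using hw0
  have hle : ∫ z : ℂ, c * Wq p ‖dz f z‖ ‖dzb f z‖ ≤
      ∫ z : ℂ, ((p - 1) ^ p * ‖dz f z‖ ^ p - ‖dzb f z‖ ^ p) := by
    refine integral_mono (hiW.const_mul c) ((hi1.const_mul _).sub hi2) ?_
    intro z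
    exact hPT p ‖dz f z‖ ‖dzb f z‖ hp2 (norm_nonneg _) (norm_nonneg _)
  rw [integral_const_mul, integral_sub (hi1.const_mul _) hi2, integral_const_mul] at hle
  have := mul_nonneg hc0 hpos
  linarith

/-- continuity in the exponent -/
theorem tendsto_pow_int {g : ℂ → ℂ} (hg : Continuous g) (hc : HasCompactSupport g) :
    Tendsto (fun q : ℝ => ∫ z, ‖g z‖ ^ q) (𝓝[>] (2 : ℝ)) (𝓝 (∫ z, ‖g z‖ ^ (2 : ℝ))) := by
  obtain ⟨M, hM⟩ := hc.exists_bound_of_continuous hg
  have hb : Integrable (fun z => (1 + M) * ‖g z‖ ^ (2 : ℝ)) := by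
    refine Integrable.const_mul (Continuous.integrable_of_hasCompactSupport ?_ ?_) _
    · exact hg.norm.rpow_const fun z => Or.inr (by norm_num)
    · refine hc.mono ?_
      intro z hz
      contrapose! hz
      simp only [Function.mem_support, not_not] at hz
      simp [hz]
  have hM0 : 0 ≤ M := (norm_nonneg _).trans (hM 0)
  refine tendsto_integral_filter_of_dominated_convergence _ ?_ ?_ hb ?_
  · filter_upwards [self_mem_nhdsWithin] with q hq
    exact (hg.norm.rpow_const fun z => Or.inr (by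
      have : (2 : ℝ) < q := hq
      linarith)).aestronglyMeasurable
  · have h1 : Iio (3 : ℝ) ∈ 𝓝[>] (2 : ℝ) := mem_nhdsWithin_of_mem_nhds (Iio_mem_nhds (by norm_num))
    filter_upwards [self_mem_nhdsWithin, h1] with q hq hq3
    refine Eventually.of_forall fun z => ?_
    have hq2 : (2 : ℝ) < q := hq
    have hq3' : q < 3 := hq3
    rw [Real.norm_of_nonneg (Real.rpow_nonneg (norm_nonneg _) _)]
    rcases eq_or_lt_of_le (norm_nonneg (g z)) with h0 | h0
    · rw [← h0, Real.zero_rpow (by linarith)]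
      positivity
    · have e : ‖g z‖ ^ q = ‖g z‖ ^ (q - 2) * ‖g z‖ ^ (2 : ℝ) := by
        rw [← Real.rpow_add h0]; congr 1; ring
      rw [e]
      refine mul_le_mul_of_nonneg_right ?_ (by positivity)
      calc ‖g z‖ ^ (q - 2) ≤ (1 + M) ^ (q - 2) :=
            Real.rpow_le_rpow h0.le (by linarith [hM z]) (by linarith)
        _ ≤ (1 + M) ^ (1 : ℝ) := Real.rpow_le_rpow_of_exponent_le (by linarith) (by linarith)
        _ = 1 + M := Real.rpow_one _
  · refine Eventually.of_forall fun z => ?_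
    rcases eq_or_lt_of_le (norm_nonneg (g z)) with h0 | h0
    · rw [← h0, Real.zero_rpow (by norm_num)]
      refine tendsto_const_nhds.congr' ?_
      filter_upwards [self_mem_nhdsWithin] with q hq
      have hq2 : (2 : ℝ) < q := hq
      rw [Real.zero_rpow (by linarith)]
    · have h2 : ContinuousAt (fun q : ℝ => ‖g z‖ ^ q) 2 :=
        (Real.continuous_const_rpow h0.ne').continuousAt
      exact h2.tendsto.mono_left nhdsWithin_le_nhds

theorem main (hQ : S_QPX) (hPL : S_PLANE) (hPT : S_PTX) (hI : S_IW (219 / 100)) : S_IW 2 := by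
  have hgt : ∀ p : ℝ, 2 < p → ∀ f : ℂ → ℂ, ContDiff ℝ 1 f → HasCompactSupport f →
      ∫ z, ‖dzb f z‖ ^ p ≤ (p - 1) ^ p * ∫ z, ‖dz f z‖ ^ p := by
    intro p hp f hf hs
    rcases le_or_gt p (11 / 5) with h | h
    · exact near hQ hPL hPT p hp h f hf hs
    · exact hI p (by linarith) f hf hs
  intro p hp f hf hs
  rcases eq_or_lt_of_le hp with rfl | hp2
  · have h1 := tendsto_pow_int (continuous_dzb hf) (supp_dzb hs)
    have h0 : Tendsto (fun q : ℝ => (q - 1) ^ q) (𝓝[>] (2 : ℝ)) (𝓝 (((2 : ℝ) - 1) ^ (2 : ℝ))) := by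
      have h2 : ContinuousAt (fun q : ℝ => (q - 1) ^ q) 2 := by
        refine ContinuousAt.rpow (continuousAt_id.sub continuousAt_const) continuousAt_id
          (Or.inl ?_)
        norm_num
      exact h2.tendsto.mono_left nhdsWithin_le_nhds
    have h2 := h0.mul (tendsto_pow_int (continuous_dz hf) (supp_dz hs))
    refine le_of_tendsto_of_tendsto h1 h2 ?_
    filter_upwards [self_mem_nhdsWithin] with q hq
    exact hgt q hq f hf hs
  · exact hgt p hp2 f hf hs

end Pool.Agent.W249.IX.Iw2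

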